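import Pool.Agent.R253.BE.Bmo

/-!
# Kernels of bounded Bergman space extremal functions are in `BMOA` (Q2 of MP_7d928b_an)

For `1 < p < ∞` and `q = p/(p-1)`: if the `A^p` extremal function of a nonzero kernel `k ∈ A^q` is
bounded, then `k ∈ BMOA`.
-/

set_option autoImplicit false

namespace Pool.Agent.Results.MP_7d928b_an.KernelBMOA

open Complex Metric Set Filter Topology MeasureTheory ComplexConjugate

/-- area measure on the unit disc -/
noncomputable def dA : Measure ℂ := volume.restrict (ball (0:ℂ) 1)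

/-- the Bergman space `A^r`: `f` is analytic in the disc and `∫ |f|^r dA < ∞` -/
def InBergman (r : ℝ) (f : ℂ → ℂ) : Prop :=
  DifferentiableOn ℂ f (ball 0 1) ∧ Integrable (fun z => ‖f z‖ ^ r) dA

/-- the norm of `A^r` -/
noncomputable def bergmanNorm (r : ℝ) (f : ℂ → ℂ) : ℝ := (∫ z, ‖f z‖ ^ r ∂dA) ^ (1 / r)

/-- the functional `f ↦ ∫ f k̄ dA` with kernel `k` -/
noncomputable def functional (k f : ℂ → ℂ) : ℂ := ∫ z, f z * conj (k z) ∂dA

/-- `F` is the `A^p` extremal function for the kernel `k`: it maximises `Re ∫ f k̄ dA` over all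
`f ∈ A^p` of norm one -/
def IsExtremal (p : ℝ) (k F : ℂ → ℂ) : Prop :=
  InBergman p F ∧ bergmanNorm p F = 1 ∧
    ∀ f, InBergman p f → bergmanNorm p f = 1 → (functional k f).re ≤ (functional k F).re

/-- `b`, a function of the angle, is the boundary function of `k`: it is `2π`-periodic, square
integrable over a period, and `k(re^{iθ}) → b(θ)` in `L²` as `r → 1⁻` -/
structure IsBoundaryFunction (k : ℂ → ℂ) (b : ℝ → ℂ) : Prop where
  periodic : Function.Periodic b (2 * Real.pi)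
  memLp : MemLp b 2 (volume.restrict (Ioc 0 (2 * Real.pi)))
  lim : Tendsto (fun r : ℝ => ∫ θ in (0:ℝ)..(2 * Real.pi),
    ‖k (r * exp (θ * I)) - b θ‖ ^ 2) (𝓝[<] 1) (𝓝 0)

/-- the mean of `b` over the arc `{e^{iθ} : α < θ < β}` -/
noncomputable def arcMean (b : ℝ → ℂ) (α β : ℝ) : ℂ := (((β - α)⁻¹ : ℝ) : ℂ) * ∫ θ in α..β, b θ

/-- `b` (a `2π`-periodic function of the angle) has bounded mean oscillation on the unit circle -/
def HasBoundedMeanOscillation (b : ℝ → ℂ) : Prop :=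
  IntervalIntegrable b volume 0 (2 * Real.pi) ∧
  ∃ C : ℝ, ∀ α β : ℝ, α < β → β - α ≤ 2 * Real.pi →
    (β - α)⁻¹ * ∫ θ in α..β, ‖b θ - arcMean b α β‖ ≤ C

/-- `BMOA`: functions of the Hardy space `H²` whose boundary values have bounded mean
oscillation -/
def InBMOA (k : ℂ → ℂ) : Prop :=
  DifferentiableOn ℂ k (ball 0 1) ∧
  (∃ C : ℝ, ∀ r : ℝ, 0 < r → r < 1 →
    ∫ θ in (0:ℝ)..(2 * Real.pi), ‖k (r * exp (θ * I))‖ ^ 2 ≤ C) ∧
  ∃ b : ℝ → ℂ, IsBoundaryFunction k b ∧ HasBoundedMeanOscillation b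

/-- **Answer to Q2 (affirmative).** Let `1 < p < ∞`, `q = p/(p-1)`. If the `A^p` extremal function
`F` of a nonzero kernel `k ∈ A^q` is bounded, then `k ∈ BMOA`. -/
theorem result : ∀ p q : ℝ, 1 < p → q = p / (p - 1) → ∀ k F : ℂ → ℂ,
    InBergman q k → (∃ z ∈ ball (0:ℂ) 1, k z ≠ 0) → IsExtremal p k F →
    (∃ M : ℝ, ∀ z ∈ ball (0:ℂ) 1, ‖F z‖ ≤ M) → InBMOA k := by
  intro p q hp hq k F hk _ hF hM
  obtain ⟨M, hM⟩ := hM
  have hpq : p.HolderConjugate q := by
    rw [hq]; exact Real.HolderConjugate.conjExponent hp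
  have hm : R253.BE.am 1 = dA := by
    unfold R253.BE.am dA; rw [ENNReal.ofReal_one, one_smul]
  have hkA : R253.BE.InA (R253.BE.am 1) q k := by rw [hm]; exact hk
  have hFA : R253.BE.IsExt (R253.BE.am 1) p k F := by rw [hm]; exact hF
  obtain ⟨C, hC0, hC⟩ := R253.BE.ub_P2 one_pos hpq hkA hFA hM
  have hG : ∀ r : ℝ, 0 < r → r < 1 → ∀ a : ℂ, ‖a‖ < 1 →
      ∫ θ in (0:ℝ)..(2 * Real.pi), R253.BE.pz a θ * ‖k (circleMap 0 r θ) - k (r * a)‖ ^ 2 ≤
        2 * Real.pi * C ^ 2 := fun r h0 h1 a ha => R253.BE.garsia hk.1 hC0 hC h0 h1 ha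
  have hN : ∀ r : ℝ, 0 < r → r < 1 →
      R253.BE.Nk k r ≤ 2 * (2 * Real.pi * C ^ 2) + 2 * Real.pi * (2 * ‖k 0‖ ^ 2) := by
    intro r h0 h1
    have h := hG r h0 h1 0 (by simp)
    have hkc : Continuous fun θ : ℝ => k (circleMap 0 r θ) :=
      R253.BE.cont_circ hk.1.continuousOn h0.le h1
    have e : ∀ θ : ℝ, R253.BE.pz 0 θ = 1 := by
      intro θ; unfold R253.BE.pz; simp
    simp only [e, one_mul, mul_zero] at h
    have h2 : R253.BE.Nk k r ≤ ∫ θ in (0:ℝ)..(2 * Real.pi),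
        (2 * ‖k (circleMap 0 r θ) - k 0‖ ^ 2 + 2 * ‖k 0‖ ^ 2) := by
      apply intervalIntegral.integral_mono_on (by positivity)
      · exact (hkc.norm.pow 2).intervalIntegrable _ _
      · apply Continuous.intervalIntegrable
        exact (continuous_const.mul ((hkc.sub continuous_const).norm.pow 2)).add continuous_const
      · intro θ _
        have h3 : ‖k (circleMap 0 r θ)‖ ≤ ‖k (circleMap 0 r θ) - k 0‖ + ‖k 0‖ :=
          norm_le_norm_sub_add _ _
        have h4 : ‖k (circleMap 0 r θ)‖ ^ 2 ≤ (‖k (circleMap 0 r θ) - k 0‖ + ‖k 0‖) ^ 2 := by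
          gcongr
        nlinarith [sq_nonneg (‖k (circleMap 0 r θ) - k 0‖ - ‖k 0‖)]
    have c1 : Continuous fun θ : ℝ => 2 * ‖k (circleMap 0 r θ) - k 0‖ ^ 2 :=
      continuous_const.mul ((hkc.sub continuous_const).norm.pow 2)
    rw [intervalIntegral.integral_add (c1.intervalIntegrable _ _) intervalIntegrable_const,
      intervalIntegral.integral_const_mul, intervalIntegral.integral_const, smul_eq_mul,
      sub_zero] at h2
    linarith
  obtain ⟨b, hb⟩ := R253.BE.exists_bdry hk.1 hN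
  have hbmo := R253.BE.bmo_of_garsia hk.1 hb (by positivity) hG
  have hcm : ∀ r θ : ℝ, (r : ℂ) * exp (θ * I) = circleMap 0 r θ := by
    intro r θ; simp [circleMap]
  refine ⟨hk.1, ⟨2 * (2 * Real.pi * C ^ 2) + 2 * Real.pi * (2 * ‖k 0‖ ^ 2), fun r h0 h1 => ?_⟩,
    b, ⟨hb.per, hb.memLp, ?_⟩, hbmo⟩
  · simp only [hcm]
    exact hN r h0 h1
  · simp only [hcm]
    exact hb.lim

end Pool.Agent.Results.MP_7d928b_an.KernelBMOA
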